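import Pool.Agent.Q281.PA.Main

/-! There are infinitely many permutation classes which are both `1`-amalgamable and splittable. -/

set_option autoImplicit false

open Pool.Agent.Q281.PA

theorem Pool.Agent.Results.MP_80b08f_co.InfinitelyMany.result :
    Set.Infinite {C : Set FPerm | IsPermClass C ∧ OneAmalgamable C ∧ Splittable C} :=
  Pool.Agent.Q281.PA.main
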